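import Mathlib
import Pool.Agent.H21.FRDef

namespace Pool.Agent.Results.MP_884c22_co.Quartic

open Pool.Agent.H21.FR Matrix Finset

theorem exp_mulVec {V : Type} [Fintype V] [DecidableEq V] (A : Matrix V V ℂ) (v : V → ℂ) (θ : ℂ)
    (h : A *ᵥ v = θ • v) : NormedSpace.exp A *ᵥ v = Complex.exp θ • v := by
  have hp : ∀ n : ℕ, A ^ n *ᵥ v = θ ^ n • v := by
    intro n
    induction n with
    | zero => simp
    | succ n ih => rw [pow_succ', ← mulVec_mulVec, ih, mulVec_smul, h, smul_smul, pow_succ]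
  have h1 : HasSum (fun n : ℕ => ((n.factorial : ℂ)⁻¹) • A ^ n) (NormedSpace.exp A) := by
    letI : NormedRing (Matrix V V ℂ) := Matrix.linftyOpNormedRing
    letI : NormedAlgebra ℂ (Matrix V V ℂ) := Matrix.linftyOpNormedAlgebra
    exact NormedSpace.exp_series_hasSum_exp' (𝕂 := ℂ) A
  have h2 := h1.map (AddMonoidHom.mk' (fun M : Matrix V V ℂ => M *ᵥ v) fun M N => add_mulVec M N v)
    (Continuous.matrix_mulVec continuous_id continuous_const)
  have h3 := (NormedSpace.exp_series_hasSum_exp' (𝕂 := ℂ) θ).smul_const v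
  rw [Complex.exp_eq_exp_ℂ]
  refine h2.unique ?_
  convert h3 using 2 with n
  simp [smul_mulVec, hp, smul_smul]

@[irreducible] def mult : Fin 16 → ℕ := ![193914, 193914, 193914, 193914, 4659, 4659, 3630, 3630,
  1029, 1029, 18373, 18373, 14684, 14684, 3689, 3689]
@[irreducible] def blow : Fin 16 → ℕ := ![27648, 27648, 27648, 27648, 82944, 82944, 82944, 82944,
  82944, 82944, 248832, 248832, 248832, 248832, 248832, 248832]
def H (s t : Fin 16) : Bool :=
  (s.val + 1 = t.val ∧ (s.val % 2 = 0 ∨ s.val = 1)) ∨ (t.val + 1 = s.val ∧ (t.val % 2 = 0 ∨ t.val = 1))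
def att (x : Bool) (t : Fin 16) : Bool :=
  if x then t.val ∈ [0, 3, 6, 7, 8, 9, 12, 13, 14, 15] else t.val ∈ [1, 2, 4, 5, 8, 9, 10, 11, 14, 15]

theorem H_symm : ∀ s t, H s t = true → H t s = true := by decide
theorem H_irr : ∀ s, ¬ H s s = true := by decide
theorem H_mult : ∀ s t, H s t = true → mult s = mult t := by unfold mult; decide

abbrev W := Σ t : Fin 16, Fin (mult t) × Fin (blow t)
abbrev V := Bool ⊕ W

def adj : V → V → Prop
  | .inl _, .inl _ => False
  | .inl x, .inr w => att x w.1 = true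
  | .inr w, .inl x => att x w.1 = true
  | .inr w, .inr w' => H w.1 w'.1 = true ∧ w.2.1.val = w'.2.1.val

def G : SimpleGraph V where
  Adj := adj
  symm := ⟨by
    rintro (x | w) (y | w') h
    · exact h
    · exact h
    · exact h
    · exact ⟨H_symm _ _ h.1, h.2.symm⟩⟩
  loopless := ⟨by
    rintro (x | w) h
    · exact h
    · exact H_irr _ h.1⟩

noncomputable instance : DecidableRel G.Adj := Classical.decRel _

def vec (g : Bool → ℝ) (f : Fin 16 → ℝ) : V → ℝ := Sum.elim g fun w => f w.1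

theorem mv_inl (g : Bool → ℝ) (f : Fin 16 → ℝ) (x : Bool) :
    (G.adjMatrix ℝ *ᵥ vec g f) (.inl x) =
      ∑ t, if att x t = true then (mult t * blow t : ℝ) * f t else 0 := by
  simp only [mulVec, dotProduct, SimpleGraph.adjMatrix_apply, Fintype.sum_sum_type,
    Fintype.sum_sigma, G, adj, vec, Sum.elim_inl, Sum.elim_inr]
  simp

theorem mv_inr (g : Bool → ℝ) (f : Fin 16 → ℝ) (w : W) :
    (G.adjMatrix ℝ *ᵥ vec g f) (.inr w) =
      (∑ x, if att x w.1 = true then g x else 0) +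
        ∑ t, if H w.1 t = true then (blow t : ℝ) * f t else 0 := by
  simp only [mulVec, dotProduct, SimpleGraph.adjMatrix_apply, Fintype.sum_sum_type,
    Fintype.sum_sigma, G, adj, vec, Sum.elim_inl, Sum.elim_inr, Fintype.sum_prod_type]
  congr 1
  · simp
  · refine sum_congr rfl fun t _ => ?_
    by_cases h : H w.1 t = true
    · rw [if_pos h, sum_eq_single (⟨w.2.1.val, H_mult _ _ h ▸ w.2.1.2⟩ : Fin (mult t))]
      · simp [h]
      · intro c _ hc
        have : ¬ w.2.1.val = c.val := fun e => hc (Fin.ext e.symm)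
        simp [this]
      · simp
    · simp [h]

def gg (ψ z : ℝ) (x : Bool) : ℝ :=
  (if x then 1 else ψ) * 6912 * ((12 - 3 * ψ + z) * (ψ + z) * (ψ + z - 24))
def ff (ψ z : ℝ) : Fin 16 → ℝ :=
  let p := (ψ + z) * (ψ + z - 24)
  let q := (12 - 3 * ψ + z) * (ψ + z - 24)
  let r := (12 - 3 * ψ + z) * (ψ + z)
  ![p, ψ * p, ψ * p, p, ψ * q, ψ * q, q, q, (ψ + 1) * q, (ψ + 1) * q,
    ψ * r, ψ * r, r, r, (ψ + 1) * r, (ψ + 1) * r]
def F (ψ z : ℝ) : V → ℝ := vec (gg ψ z) (ff ψ z)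

theorem eig (ψ z : ℝ) (hψ : ψ ^ 2 = ψ + 1) (hz : (z ^ 2 - 864) * (z ^ 2 - 6) = 0) :
    G.adjMatrix ℝ *ᵥ F ψ z = (6912 * (12 + ψ + z)) • F ψ z := by
  ext v
  rcases v with x | ⟨t, c⟩
  · rw [F, mv_inl]
    cases x <;> simp [Fin.sum_univ_succ, att, mult, blow, vec, gg, ff] <;> grind
  · rw [F, mv_inr]
    fin_cases t <;> simp [Fin.sum_univ_succ, att, H, blow, vec, gg, ff] <;> grind

theorem comb (ψ s : ℝ) (hs : s ^ 2 = 6) (v : V) :
    F ψ (12 * s) v - F ψ (-(12 * s)) v - 12 * (F ψ s v - F ψ (-s) v) =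
      142331904 * s * (ψ * (Pi.single (Sum.inl false) 1 : V → ℝ) v +
        (Pi.single (Sum.inl true) 1 : V → ℝ) v) := by
  rcases v with x | ⟨t, c⟩
  · cases x <;> simp [F, vec, gg] <;> grind
  · fin_cases t <;> simp [F, vec, ff] <;> ring

noncomputable def τ : ℝ := 2 * Real.pi / (6912 * √6)
noncomputable def U : Matrix V V ℂ := NormedSpace.exp ((Complex.I * τ) • G.adjMatrix ℂ)
noncomputable def ph (ψ : ℝ) : ℂ := Complex.exp (Complex.I * τ * (6912 * (12 + ψ)))

theorem U_F (ψ : ℝ) (hψ : ψ ^ 2 = ψ + 1) (m : ℤ) (hm : (m ^ 2 - 144) * (m ^ 2 - 1) = 0) :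
    U *ᵥ (fun v => (F ψ (m * √6) v : ℂ)) = ph ψ • fun v => (F ψ (m * √6) v : ℂ) := by
  have hs : √6 ^ 2 = 6 := Real.sq_sqrt (by norm_num)
  have hm' : ((m : ℝ) ^ 2 - 144) * (m ^ 2 - 1) = 0 := by exact_mod_cast hm
  have h := eig ψ (m * √6) hψ (by rw [mul_pow, hs]; linear_combination 36 * hm')
  have h2 : G.adjMatrix ℂ *ᵥ (fun v => (F ψ (m * √6) v : ℂ)) =
      ((6912 * (12 + ψ + m * √6) : ℝ) : ℂ) • fun v => (F ψ (m * √6) v : ℂ) := by
    ext v
    have := congrArg Complex.ofReal (congrFun h v)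
    simp only [SimpleGraph.adjMatrix_mulVec_apply, Pi.smul_apply, smul_eq_mul] at this ⊢
    rw [Complex.ofReal_sum, Complex.ofReal_mul] at this
    exact this
  rw [U, exp_mulVec _ _ (Complex.I * τ * ((6912 * (12 + ψ + m * √6) : ℝ) : ℂ))
    (by rw [smul_mulVec, h2, smul_smul])]
  congr 1
  rw [ph, Complex.exp_eq_exp_iff_exists_int]
  refine ⟨m, ?_⟩
  have : ((√6 : ℝ) : ℂ) ≠ 0 := by exact_mod_cast (by positivity : (√6 : ℝ) ≠ 0)
  rw [τ]; push_cast; field_simp

theorem U_v (ψ : ℝ) (hψ : ψ ^ 2 = ψ + 1) :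
    U *ᵥ ((ψ : ℂ) • Pi.single (Sum.inl false) 1 + Pi.single (Sum.inl true) 1) =
      ph ψ • ((ψ : ℂ) • Pi.single (Sum.inl false) 1 + Pi.single (Sum.inl true) 1) := by
  have hs : √6 ^ 2 = 6 := Real.sq_sqrt (by norm_num)
  have h0 : ((142331904 * √6 : ℝ) : ℂ) ≠ 0 := by
    exact_mod_cast (by positivity : (142331904 * √6 : ℝ) ≠ 0)
  have e : ((142331904 * √6 : ℝ) : ℂ) •
      ((ψ : ℂ) • Pi.single (Sum.inl false) 1 + Pi.single (Sum.inl true) 1 : V → ℂ) =
      (fun v => (F ψ ((12 : ℤ) * √6) v : ℂ)) - (fun v => (F ψ ((-12 : ℤ) * √6) v : ℂ)) -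
        (12 : ℂ) • ((fun v => (F ψ ((1 : ℤ) * √6) v : ℂ)) -
          (fun v => (F ψ ((-1 : ℤ) * √6) v : ℂ))) := by
    ext v
    have := congrArg Complex.ofReal (comb ψ _ hs v)
    simp only [Pi.single_apply, Pi.smul_apply, Pi.add_apply, Pi.sub_apply, smul_eq_mul] at this ⊢
    push_cast [apply_ite Complex.ofReal] at this ⊢
    simp only [neg_mul, one_mul]
    exact this.symm
  apply smul_right_injective _ h0
  simp only
  rw [← mulVec_smul, smul_comm _ (ph ψ), e, mulVec_sub, mulVec_smul, mulVec_sub, mulVec_sub,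
    U_F ψ hψ 12 (by norm_num), U_F ψ hψ (-12) (by norm_num), U_F ψ hψ 1 (by norm_num),
    U_F ψ hψ (-1) (by norm_num)]
  module

open Real in
theorem ph_ne : ph goldenRatio ≠ ph goldenConj := by
  intro h
  rw [ph, ph, Complex.exp_eq_exp_iff_exists_int] at h
  obtain ⟨n, h⟩ := h
  have h6 : (0 : ℝ) < √6 := by positivity
  have h1 : τ * (6912 * (12 + goldenRatio)) = τ * (6912 * (12 + goldenConj)) + n * (2 * π) := by
    have : ((τ * (6912 * (12 + goldenRatio)) : ℝ) : ℂ) =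
        ((τ * (6912 * (12 + goldenConj)) + n * (2 * π) : ℝ) : ℂ) := by
      apply mul_left_cancel₀ Complex.I_ne_zero
      generalize goldenRatio = x at *
      generalize goldenConj = y at *
      push_cast; linear_combination h
    exact_mod_cast this
  have h2 : √5 = n * √6 := by
    rw [τ] at h1; field_simp at h1; linarith
  have h3 : (5 : ℝ) = n ^ 2 * 6 := by
    rw [← Real.sq_sqrt (show (0 : ℝ) ≤ 5 by norm_num), h2, mul_pow, Real.sq_sqrt (by norm_num)]
  have h4 : (5 : ℤ) = n ^ 2 * 6 := by exact_mod_cast h3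
  omega

open Real in
theorem fr : ProperFR G (.inl false) (.inl true) := by
  have h5 : ((√5 : ℝ) : ℂ) ≠ 0 := by exact_mod_cast (by positivity : (√5 : ℝ) ≠ 0)
  have hd : (goldenRatio : ℂ) - goldenConj = (√5 : ℝ) := by
    rw [← goldenRatio_sub_goldenConj]; push_cast; rfl
  refine ⟨τ, (ph goldenRatio * goldenRatio - ph goldenConj * goldenConj) / (√5 : ℝ),
    (ph goldenRatio - ph goldenConj) / (√5 : ℝ), by unfold τ; positivity,
    mul_ne_zero (div_ne_zero ?_ h5) (div_ne_zero (sub_ne_zero.mpr ph_ne) h5), ?_⟩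
  · intro h
    have h := congrArg norm (sub_eq_zero.mp h)
    have n1 : ∀ ψ, ‖ph ψ‖ = 1 := fun ψ => by
      rw [ph, Complex.norm_exp]; simp
    rw [norm_mul, norm_mul, n1, n1, Complex.norm_real, Complex.norm_real, Real.norm_eq_abs,
      Real.norm_eq_abs, abs_of_pos goldenRatio_pos, abs_of_neg goldenConj_neg] at h
    linarith [goldenRatio_add_goldenConj]
  · change U *ᵥ _ = _
    have h1 := U_v _ goldenRatio_sq
    have h2 := U_v _ goldenConj_sq
    apply smul_right_injective _ h5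
    simp only
    rw [mulVec_add, mulVec_smul] at h1 h2
    rw [smul_add, smul_smul, smul_smul, mul_div_cancel₀ _ h5, mul_div_cancel₀ _ h5, ← hd]
    linear_combination (norm := module) h1 - h2

open Real in
theorem supp : InSupport G (.inl false) (6912 * (12 + goldenRatio + √6)) := by
  have hs : √6 ^ 2 = 6 := Real.sq_sqrt (by norm_num)
  intro h
  rw [Submodule.starProjection_apply_eq_zero_iff] at h
  have := h (WithLp.toLp 2 (F goldenRatio √6)) (by
    rw [Module.End.mem_eigenspace_iff, Matrix.toEuclideanLin_toLp, Matrix.toLin'_apply,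
      eig _ _ goldenRatio_sq (by rw [hs]; ring)]; rfl)
  rw [EuclideanSpace.inner_single_right] at this
  have h1 := goldenRatio_lt_two
  have h2 := one_lt_goldenRatio
  have h3 : √6 < 3 := (Real.sqrt_lt' (by norm_num)).mpr (by norm_num)
  have h4 : 0 < √6 := by positivity
  simp only [F, vec, gg, Sum.elim_inl, one_mul, conj_trivial, Bool.false_eq_true, if_false,
    mul_eq_zero] at this
  rcases this with (h | h) | (h | h) | h <;> linarith

theorem indep (a b c d : ℚ) (h : (a : ℝ) + b * √5 + c * √6 + d * (√5 * √6) = 0) : d = 0 := by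
  have h5 : √5 ^ 2 = 5 := Real.sq_sqrt (by norm_num)
  have h6 : √6 ^ 2 = 6 := Real.sq_sqrt (by norm_num)
  have i5 : Irrational √5 := Nat.Prime.irrational_sqrt (p := 5) (by norm_num)
  have lin : ∀ x y : ℚ, (x : ℝ) + y * √5 = 0 → x = 0 ∧ y = 0 := by
    intro x y e
    by_cases hy : y = 0
    · subst hy; simpa using e
    · exact absurd ⟨-x / y, by push_cast; field_simp; linarith⟩ i5
  by_contra hd
  have e1 := lin (a ^ 2 + 5 * b ^ 2 - 6 * c ^ 2 - 30 * d ^ 2) (2 * a * b - 12 * c * d) (by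
    push_cast
    linear_combination (a + b * √5 - c * √6 - d * (√5 * √6)) * h + (-(b : ℝ) ^ 2 + 6 * d ^ 2) * h5 +
      (c + d * √5) ^ 2 * h6)
  have hN : c ^ 2 - 5 * d ^ 2 ≠ 0 := by
    intro e
    have : ((c : ℝ) + d * √5) * ((c : ℝ) + (-d : ℚ) * √5) = 0 := by
      have : (c : ℝ) ^ 2 - 5 * d ^ 2 = 0 := by exact_mod_cast e
      push_cast; linear_combination this - (d : ℝ) ^ 2 * h5
    rcases mul_eq_zero.mp this with e | e
    · exact hd (lin _ _ e).2
    · exact hd (neg_eq_zero.mp (lin _ _ e).2)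
  set u := (a * c - 5 * b * d) / (c ^ 2 - 5 * d ^ 2)
  set v := (b * c - a * d) / (c ^ 2 - 5 * d ^ 2)
  have huv : u * v = 0 := by
    simp only [u, v]; field_simp
    linear_combination (c ^ 2 + 5 * d ^ 2) / 2 * e1.2 - c * d * e1.1
  have hsq : u ^ 2 + 5 * v ^ 2 = 6 := by
    simp only [u, v]; field_simp
    linear_combination (c ^ 2 + 5 * d ^ 2) * e1.1 - 10 * c * d * e1.2
  rcases mul_eq_zero.mp huv with e | e
  · have : IsSquare (30 : ℚ) := ⟨5 * v, by rw [e] at hsq; linear_combination -5 * hsq⟩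
    revert this; norm_num
  · have : IsSquare (6 : ℚ) := ⟨u, by rw [e] at hsq; linear_combination -hsq⟩
    revert this; norm_num

open Real Polynomial in
theorem deg : 3 ≤ (minpoly ℚ (6912 * (12 + goldenRatio + √6) : ℝ)).natDegree := by
  have h5 : √5 ^ 2 = 5 := Real.sq_sqrt (by norm_num)
  have h6 : √6 ^ 2 = 6 := Real.sq_sqrt (by norm_num)
  set θ : ℝ := 6912 * (12 + goldenRatio + √6) with hθ
  have hi : IsIntegral ℚ θ := by
    have a5 : IsIntegral ℚ √5 := IsIntegral.of_pow (n := 2) (by norm_num) (by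
      rw [h5]; exact_mod_cast isIntegral_algebraMap (R := ℚ) (A := ℝ) (x := 5))
    have a6 : IsIntegral ℚ √6 := IsIntegral.of_pow (n := 2) (by norm_num) (by
      rw [h6]; exact_mod_cast isIntegral_algebraMap (R := ℚ) (A := ℝ) (x := 6))
    have e : θ = algebraMap ℚ ℝ 86400 + algebraMap ℚ ℝ 3456 * √5 + algebraMap ℚ ℝ 6912 * √6 := by
      rw [hθ, goldenRatio]; simp; ring
    rw [e]
    exact (isIntegral_algebraMap.add (isIntegral_algebraMap.mul a5)).add
      (isIntegral_algebraMap.mul a6)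
  by_contra hlt
  have hlt : (minpoly ℚ θ).natDegree < 3 := not_le.mp hlt
  have h0 := minpoly.aeval ℚ θ
  rw [aeval_eq_sum_range' hlt] at h0
  simp only [sum_range_succ, sum_range_zero, Rat.smul_def] at h0
  set c0 := (minpoly ℚ θ).coeff 0
  set c1 := (minpoly ℚ θ).coeff 1
  set c2 := (minpoly ℚ θ).coeff 2 with hc2
  have e : θ = 86400 + 3456 * √5 + 6912 * √6 := by rw [hθ, goldenRatio]; ring
  have z2 : c2 * 47775744 = 0 := indep
    (c0 + c1 * 86400 + c2 * (86400 ^ 2 + 3456 ^ 2 * 5 + 6912 ^ 2 * 6))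
    (c1 * 3456 + c2 * (2 * 86400 * 3456)) (c1 * 6912 + c2 * (2 * 86400 * 6912)) _ (by
      rw [e] at h0; push_cast
      linear_combination h0 - (c2 : ℝ) * 3456 ^ 2 * h5 - (c2 : ℝ) * 6912 ^ 2 * h6)
  have z2 : c2 = 0 := by linarith
  have z1 : c1 * 20736 = 0 := by
    have := indep (c1 * 6912 * 6) 0 (c0 + c1 * 86400) (c1 * 3456) (by
      rw [e, z2] at h0; push_cast at h0 ⊢
      linear_combination √6 * h0 - (c1 : ℝ) * 6912 * h6)
    linarith
  have z1 : c1 = 0 := by linarith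
  have z0 : c0 = 0 := by
    rw [z1, z2] at h0; simpa using h0
  apply minpoly.ne_zero hi
  ext i
  rcases i with _ | _ | _ | i
  · exact z0
  · exact z1
  · exact z2
  · exact coeff_eq_zero_of_natDegree_lt (by omega)

theorem result : ∃ (V : Type) (_ : Fintype V) (_ : DecidableEq V) (G : SimpleGraph V)
    (_ : DecidableRel G.Adj) (a b : V), a ≠ b ∧ ProperFR G a b ∧
      ∃ θ : ℝ, InSupport G a θ ∧ 3 ≤ (minpoly ℚ θ).natDegree :=
  ⟨V, inferInstance, inferInstance, G, inferInstance, .inl false, .inl true, by simp, fr,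
    _, supp, deg⟩

end Pool.Agent.Results.MP_884c22_co.Quartic
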